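import Pool.Agent.Lib.MP_bdd006_gt.Beta

/-!
Two Tychonoff spaces `X`, `Y` with homeomorphic spaces of continuous real functions in the topology
of pointwise convergence, such that `Y` is a countable intersection of sigma-compact subsets of its
Stone-Cech compactification and `X` has this form in no compact Hausdorff space.
-/

namespace Pool.Agent.Results.MP_bdd006_gt.NotInvariant

open Set Topology Pool.Agent.Lib.MP_bdd006_gt

universe u

theorem result : ∃ (X Y : Type) (_ : TopologicalSpace X) (_ : TopologicalSpace Y),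
    T35Space X ∧ T35Space Y ∧
    Nonempty (@Homeomorph C(X, ℝ) C(Y, ℝ)
      (TopologicalSpace.induced (fun f : C(X, ℝ) => (f : X → ℝ)) Pi.topologicalSpace)
      (TopologicalSpace.induced (fun g : C(Y, ℝ) => (g : Y → ℝ)) Pi.topologicalSpace)) ∧
    (∃ A : ℕ → Set (StoneCech Y), (∀ n, IsSigmaCompact (A n)) ∧
      range (stoneCechUnit : Y → StoneCech Y) = ⋂ n, A n) ∧
    ∀ (K : Type u) [TopologicalSpace K] [CompactSpace K] [T2Space K] (e : X → K), IsEmbedding e →
      ∀ A : ℕ → Set K, (∀ n, IsSigmaCompact (A n)) → range e ≠ ⋂ n, A n := by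
  have key : ∀ (Z : Type) [TopologicalSpace Z], Nonempty (@Homeomorph C(Z, ℝ)
      {f : Z → ℝ // Continuous f}
      (TopologicalSpace.induced (fun f : C(Z, ℝ) => (f : Z → ℝ)) Pi.topologicalSpace) _) := by
    intro Z _
    letI : TopologicalSpace C(Z, ℝ) :=
      TopologicalSpace.induced (fun f : C(Z, ℝ) => (f : Z → ℝ)) Pi.topologicalSpace
    exact ⟨{ toFun := fun f => ⟨f, f.continuous⟩
             invFun := fun f => ⟨f.1, f.2⟩
             left_inv := fun _ => rfl
             right_inv := fun _ => rfl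
             continuous_toFun := continuous_induced_dom.subtype_mk _
             continuous_invFun := continuous_induced_rng.2 continuous_subtype_val }⟩
  refine ⟨X, Y, inferInstance, inferInstance, inferInstance, inferInstance, ?_, ?_, ?_⟩
  · obtain ⟨a⟩ := key X
    obtain ⟨b⟩ := key Y
    letI : TopologicalSpace C(X, ℝ) :=
      TopologicalSpace.induced (fun f : C(X, ℝ) => (f : X → ℝ)) Pi.topologicalSpace
    letI : TopologicalSpace C(Y, ℝ) :=
      TopologicalSpace.induced (fun f : C(Y, ℝ) => (f : Y → ℝ)) Pi.topologicalSpace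
    exact ⟨(a.trans homeoXY).trans b.symm⟩
  · obtain ⟨K, _, _, _, e, he, C, hC, hr⟩ := Y_ksd
    obtain ⟨C', h1, h2⟩ := beta_of_ksd he (fun n => ⟨C n, hC n, rfl⟩) hr
    exact ⟨fun n => ⋃ m, C' n m, fun n => ⟨C' n, h1 n, rfl⟩, h2⟩
  · intro K _ _ _ e he A hA hr
    exact X_not_ksd ⟨StoneCech X, inferInstance, inferInstance, inferInstance, stoneCechUnit,
      isEmbedding_stoneCechUnit, beta_of_ksd he hA hr⟩

end Pool.Agent.Results.MP_bdd006_gt.NotInvariant
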