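import Pool.Agent.Lib.MP_bdd006_gt.Unif

/-!
A uniformly continuous open map from `C_p(Y)` to `C_p(X)` carries the property of being a
countable intersection of sigma-compact sets in a compactification from `Y` to `X`.
-/

namespace Pool.Agent.Results.MP_bdd006_gt.UniformInvariant

open Set Topology

universe u v w

theorem result (X : Type u) (Y : Type v) [TopologicalSpace X] [TopologicalSpace Y] [T35Space X]
    (T : {g : Y → ℝ // Continuous g} → {f : X → ℝ // Continuous f})
    (hT : UniformContinuous T) (hO : IsOpenMap T)
    (K : Type w) [TopologicalSpace K] [CompactSpace K] [T2Space K] (e : Y → K)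
    (he : IsEmbedding e) (A : ℕ → Set K) (hA : ∀ n, IsSigmaCompact (A n))
    (hr : range e = ⋂ n, A n) :
    IsEmbedding (stoneCechUnit : X → StoneCech X) ∧
      ∃ B : ℕ → Set (StoneCech X), (∀ n, IsSigmaCompact (B n)) ∧
        range (stoneCechUnit : X → StoneCech X) = ⋂ n, B n :=
  ⟨isEmbedding_stoneCechUnit, Pool.Agent.Lib.MP_bdd006_gt.Unif.main hT hO he hA hr⟩

end Pool.Agent.Results.MP_bdd006_gt.UniformInvariant
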